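import Pool.Agent.Helper92.FR.GoalsA

/-!
# The Prekopa-Leindler inequality for bounded functions with bounded support
-/

set_option autoImplicit false

namespace Pool.Agent.Helper9.FR

open MeasureTheory Set
open scoped ENNReal
open Pool.Agent.Helper92.FR

lemma bm_compact {A B S : Set ℝ} {t : ℝ} (ht0 : 0 < t) (ht1 : t < 1) (hA : IsCompact A)
    (hB : IsCompact B) (hAn : A.Nonempty) (hBn : B.Nonempty)
    (h : ∀ a ∈ A, ∀ b ∈ B, (1 - t) * a + t * b ∈ S) :
    ENNReal.ofReal (1 - t) * volume A + ENNReal.ofReal t * volume B ≤ volume S := by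
  have ht' : 0 < 1 - t := by linarith
  obtain ⟨α, hα⟩ := hA.exists_isGreatest hAn
  obtain ⟨β, hβ⟩ := hB.exists_isLeast hBn
  let S₁ : Set ℝ := ((1 - t)⁻¹ * ·) ⁻¹' ((fun x => x + (-((1 - t)⁻¹ * (t * β)))) ⁻¹' A)
  let S₂ : Set ℝ := (t⁻¹ * ·) ⁻¹' ((fun x => x + (-(t⁻¹ * ((1 - t) * α)))) ⁻¹' B)
  have hS₁v : volume S₁ = ENNReal.ofReal (1 - t) * volume A := by
    simp only [S₁]
    rw [Real.volume_preimage_mul_left (inv_ne_zero ht'.ne'), measure_preimage_add_right, inv_inv,
      abs_of_pos ht']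
  have hS₂v : volume S₂ = ENNReal.ofReal t * volume B := by
    simp only [S₂]
    rw [Real.volume_preimage_mul_left (inv_ne_zero ht0.ne'), measure_preimage_add_right, inv_inv,
      abs_of_pos ht0]
  have hS₂m : MeasurableSet S₂ :=
    measurableSet_preimage (measurable_const_mul _) (measurableSet_preimage (measurable_add_const _)
      hB.measurableSet)
  have e1 : ∀ m : ℝ, (1 - t) * ((1 - t)⁻¹ * m + -((1 - t)⁻¹ * (t * β))) = m - t * β := by
    intro m; field_simp; ring
  have e2 : ∀ m : ℝ, t * (t⁻¹ * m + -(t⁻¹ * ((1 - t) * α))) = m - (1 - t) * α := by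
    intro m; field_simp; ring
  have hdisj : Disjoint S₁ (S₂ \ {(1 - t) * α + t * β}) := by
    rw [Set.disjoint_left]
    intro m hm1 hm2
    have h1 : (1 - t)⁻¹ * m + -((1 - t)⁻¹ * (t * β)) ≤ α := hα.2 hm1
    have h2 : β ≤ t⁻¹ * m + -(t⁻¹ * ((1 - t) * α)) := hβ.2 hm2.1
    have h3 := mul_le_mul_of_nonneg_left h1 ht'.le
    have h4 := mul_le_mul_of_nonneg_left h2 ht0.le
    rw [e1] at h3
    rw [e2] at h4
    apply hm2.2
    rw [mem_singleton_iff]
    linarith
  have hunion : S₁ ∪ (S₂ \ {(1 - t) * α + t * β}) ⊆ S := by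
    rintro m (hm | hm)
    · have h1 := h _ hm β hβ.1
      rw [e1] at h1
      have h2 : m - t * β + t * β = m := by ring
      rwa [h2] at h1
    · have h1 := h α hα.1 _ hm.1
      rw [e2] at h1
      have h2 : (1 - t) * α + (m - (1 - t) * α) = m := by ring
      rwa [h2] at h1
  calc ENNReal.ofReal (1 - t) * volume A + ENNReal.ofReal t * volume B
      = volume S₁ + volume S₂ := by rw [hS₁v, hS₂v]
    _ = volume S₁ + volume (S₂ \ {(1 - t) * α + t * β}) := by
          rw [measure_sdiff_null (measure_singleton _)]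
    _ = volume (S₁ ∪ (S₂ \ {(1 - t) * α + t * β})) :=
          (measure_union hdisj (hS₂m.diff (measurableSet_singleton _))).symm
    _ ≤ volume S := measure_mono hunion

/-- One-dimensional Brunn-Minkowski inequality. -/
lemma bm_one {A B S : Set ℝ} {t : ℝ} (ht0 : 0 < t) (ht1 : t < 1) (hA : MeasurableSet A)
    (hB : MeasurableSet B) (hAn : A.Nonempty)
    (hBn : B.Nonempty) (h : ∀ a ∈ A, ∀ b ∈ B, (1 - t) * a + t * b ∈ S) :
    ENNReal.ofReal (1 - t) * volume A + ENNReal.ofReal t * volume B ≤ volume S := by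
  obtain ⟨a₀, ha₀⟩ := hAn
  obtain ⟨b₀, hb₀⟩ := hBn
  have key : ∀ K, (K ⊆ A ∧ IsCompact K) → ∀ L, (L ⊆ B ∧ IsCompact L) →
      ENNReal.ofReal (1 - t) * volume K + ENNReal.ofReal t * volume L ≤ volume S := by
    intro K hK L hL
    have h1 := bm_compact (S := S) ht0 ht1 (hK.2.insert a₀) (hL.2.insert b₀) ⟨a₀, mem_insert _ _⟩
      ⟨b₀, mem_insert _ _⟩ (fun a ha b hb => h a (by
        rcases ha with rfl | ha
        · exact ha₀
        · exact hK.1 ha) b (by
        rcases hb with rfl | hb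
        · exact hb₀
        · exact hL.1 hb))
    refine le_trans ?_ h1
    gcongr
    · exact subset_insert _ _
    · exact subset_insert _ _
  have hA' : ENNReal.ofReal (1 - t) * volume A =
      ⨆ (K : Set ℝ) (_ : K ⊆ A ∧ IsCompact K), ENNReal.ofReal (1 - t) * volume K := by
    rw [hA.measure_eq_iSup_isCompact]
    simp only [ENNReal.mul_iSup, iSup_and]
  have hB' : ENNReal.ofReal t * volume B =
      ⨆ (K : Set ℝ) (_ : K ⊆ B ∧ IsCompact K), ENNReal.ofReal t * volume K := by
    rw [hB.measure_eq_iSup_isCompact]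
    simp only [ENNReal.mul_iSup, iSup_and]
  rw [hA', hB']
  exact ENNReal.biSup_add_biSup_le' ⟨∅, empty_subset _, isCompact_empty⟩
    ⟨∅, empty_subset _, isCompact_empty⟩ key

/-- Normalized one-dimensional Prekopa-Leindler inequality. -/
lemma pl_normalized {f g h : ℝ → ℝ} {t : ℝ} (ht0 : 0 < t) (ht1 : t < 1) (hf : Measurable f)
    (hg : Measurable g) (hh : Measurable h)
    (hf0 : ∀ a, 0 ≤ f a) (hg0 : ∀ a, 0 ≤ g a) (hh0 : ∀ a, 0 ≤ h a)
    (hf1 : ∀ a, f a ≤ 1) (hg1 : ∀ a, g a ≤ 1) (hfs : ∀ s < 1, ∃ a, s < f a)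
    (hgs : ∀ s < 1, ∃ a, s < g a)
    (hfgh : ∀ a b, f a ^ (1 - t) * g b ^ t ≤ h ((1 - t) * a + t * b)) :
    ENNReal.ofReal (1 - t) * (∫⁻ a, ENNReal.ofReal (f a)) +
      ENNReal.ofReal t * (∫⁻ a, ENNReal.ofReal (g a)) ≤ ∫⁻ a, ENNReal.ofReal (h a) := by
  have ht' : 0 < 1 - t := by linarith
  have hlevel : ∀ {u : ℝ → ℝ}, Measurable u → (∀ a, 0 ≤ u a) → (∀ a, u a ≤ 1) →
      ∫⁻ a, ENNReal.ofReal (u a) = ∫⁻ s in Ioo (0 : ℝ) 1, volume {a : ℝ | s < u a} := by
    intro u hu hu0 hu1
    rw [lintegral_eq_lintegral_meas_lt volume (Filter.Eventually.of_forall hu0) hu.aemeasurable]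
    rw [← lintegral_indicator measurableSet_Ioi, ← lintegral_indicator measurableSet_Ioo]
    refine lintegral_congr fun s => ?_
    by_cases hs : s ∈ Ioo (0 : ℝ) 1
    · rw [indicator_of_mem hs, indicator_of_mem (Ioo_subset_Ioi_self hs)]
    · rw [indicator_of_notMem hs]
      by_cases hs' : s ∈ Ioi (0 : ℝ)
      · rw [indicator_of_mem hs']
        have h1 : 1 ≤ s := by
          by_contra hlt
          push Not at hlt
          exact hs ⟨hs', hlt⟩
        have h2 : {a : ℝ | s < u a} = ∅ := by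
          ext a
          simp only [mem_ofPred_eq, mem_empty_iff_false, iff_false, not_lt]
          exact (hu1 a).trans h1
        rw [h2, measure_empty]
      · rw [indicator_of_notMem hs']
  have hh' : ∫⁻ s in Ioo (0 : ℝ) 1, volume {a : ℝ | s < h a} ≤ ∫⁻ a, ENNReal.ofReal (h a) := by
    rw [lintegral_eq_lintegral_meas_lt volume (Filter.Eventually.of_forall hh0) hh.aemeasurable]
    exact lintegral_mono_set Ioo_subset_Ioi_self
  rw [hlevel hf hf0 hf1, hlevel hg hg0 hg1]
  refine le_trans ?_ hh'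
  have hmeas : ∀ {u : ℝ → ℝ}, Measurable fun s : ℝ => volume {a : ℝ | s < u a} := by
    intro u
    apply Antitone.measurable
    intro s s' hst
    exact measure_mono fun a (ha : s' < u a) => lt_of_le_of_lt hst ha
  rw [← lintegral_const_mul _ hmeas, ← lintegral_const_mul _ hmeas,
    ← lintegral_add_left (hmeas.const_mul _)]
  refine setLIntegral_mono' measurableSet_Ioo fun s hs => ?_
  apply bm_one ht0 ht1 (hf measurableSet_Ioi) (hg measurableSet_Ioi) (hfs s hs.2) (hgs s hs.2)
  intro a ha b hb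
  have h1 := hfgh a b
  have ha' : s < f a := ha
  have hb' : s < g b := hb
  have h2 : s < f a ^ (1 - t) * g b ^ t := by
    calc s = s ^ (1 - t) * s ^ t := by
          rw [← Real.rpow_add hs.1]; simp
      _ < f a ^ (1 - t) * g b ^ t := mul_lt_mul'' (Real.rpow_lt_rpow hs.1.le ha' ht')
          (Real.rpow_lt_rpow hs.1.le hb' ht0) (Real.rpow_nonneg hs.1.le _)
          (Real.rpow_nonneg hs.1.le _)
  exact lt_of_lt_of_le h2 h1

/-- One-dimensional Prekopa-Leindler inequality (bounded integrable functions). -/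
lemma pl_one {f g h : ℝ → ℝ} {t C : ℝ} (ht0 : 0 < t) (ht1 : t < 1) (hf : Measurable f)
    (hg : Measurable g) (hh : Measurable h) (hfi : Integrable f) (hgi : Integrable g)
    (hhi : Integrable h)
    (hf0 : ∀ a, 0 ≤ f a) (hg0 : ∀ a, 0 ≤ g a) (hh0 : ∀ a, 0 ≤ h a)
    (hf1 : ∀ a, f a ≤ C) (hg1 : ∀ a, g a ≤ C)
    (hfgh : ∀ a b, f a ^ (1 - t) * g b ^ t ≤ h ((1 - t) * a + t * b)) :
    (∫ a, f a) ^ (1 - t) * (∫ a, g a) ^ t ≤ ∫ a, h a := by
  have ht' : 0 < 1 - t := by linarith
  have hfb : BddAbove (range f) := ⟨C, by rintro _ ⟨a, rfl⟩; exact hf1 a⟩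
  have hgb : BddAbove (range g) := ⟨C, by rintro _ ⟨a, rfl⟩; exact hg1 a⟩
  have hhn : 0 ≤ ∫ a, h a := integral_nonneg hh0
  set F : ℝ := ⨆ a, f a with hF
  set G : ℝ := ⨆ a, g a with hG
  have hfF : ∀ a, f a ≤ F := fun a => le_ciSup hfb a
  have hgG : ∀ a, g a ≤ G := fun a => le_ciSup hgb a
  have hF0 : 0 ≤ F := (hf0 0).trans (hfF 0)
  have hG0 : 0 ≤ G := (hg0 0).trans (hgG 0)
  rcases hF0.eq_or_lt with h0 | hFpos
  · have : ∀ a, f a = 0 := fun a => le_antisymm (by rw [h0]; exact hfF a) (hf0 a)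
    simp only [this, integral_zero]
    rw [Real.zero_rpow ht'.ne', zero_mul]
    exact hhn
  rcases hG0.eq_or_lt with h0 | hGpos
  · have : ∀ a, g a = 0 := fun a => le_antisymm (by rw [h0]; exact hgG a) (hg0 a)
    simp only [this, integral_zero]
    rw [Real.zero_rpow ht0.ne', mul_zero]
    exact hhn
  set r : ℝ := F ^ (1 - t) * G ^ t with hr
  have hr0 : 0 < r := by positivity
  have hnorm := pl_normalized (f := fun a => f a / F) (g := fun a => g a / G)
    (h := fun a => h a / r) ht0 ht1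
    (hf.div_const F) (hg.div_const G) (hh.div_const r) (fun a => by have := hf0 a; positivity)
    (fun a => by have := hg0 a; positivity) (fun a => by have := hh0 a; positivity)
    (fun a => (div_le_one hFpos).mpr (hfF a)) (fun a => (div_le_one hGpos).mpr (hgG a))
    (fun t ht => by
      obtain ⟨a, ha⟩ := exists_lt_of_lt_ciSup (show t * F < ⨆ a, f a by rw [← hF]; nlinarith)
      exact ⟨a, (lt_div_iff₀ hFpos).mpr ha⟩)
    (fun t ht => by
      obtain ⟨a, ha⟩ := exists_lt_of_lt_ciSup (show t * G < ⨆ a, g a by rw [← hG]; nlinarith)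
      exact ⟨a, (lt_div_iff₀ hGpos).mpr ha⟩)
    (fun a b => by
      rw [Real.div_rpow (hf0 a) hFpos.le, Real.div_rpow (hg0 b) hGpos.le, div_mul_div_comm, ← hr]
      exact div_le_div_of_nonneg_right (hfgh a b) hr0.le)
  rw [← ofReal_integral_eq_lintegral_ofReal (hfi.div_const F)
      (Filter.Eventually.of_forall fun a => by have := hf0 a; positivity),
    ← ofReal_integral_eq_lintegral_ofReal (hgi.div_const G)
      (Filter.Eventually.of_forall fun a => by have := hg0 a; positivity),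
    ← ofReal_integral_eq_lintegral_ofReal (hhi.div_const r)
      (Filter.Eventually.of_forall fun a => by have := hh0 a; positivity),
    ← ENNReal.ofReal_mul ht'.le, ← ENNReal.ofReal_mul ht0.le, ← ENNReal.ofReal_add,
    ENNReal.ofReal_le_ofReal_iff] at hnorm
  rotate_left
  · rw [integral_div]; positivity
  · rw [integral_div]
    have : 0 ≤ ∫ a, f a := integral_nonneg hf0
    positivity
  · rw [integral_div]
    have : 0 ≤ ∫ a, g a := integral_nonneg hg0
    positivity
  rw [integral_div, integral_div, integral_div] at hnorm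
  have hIf : 0 ≤ ∫ a, f a := integral_nonneg hf0
  have hIg : 0 ≤ ∫ a, g a := integral_nonneg hg0
  have hag := Real.geom_mean_le_arith_mean2_weighted ht'.le ht0.le
    (div_nonneg hIf hFpos.le) (div_nonneg hIg hGpos.le) (by ring)
  have h3 := hag.trans hnorm
  rw [Real.div_rpow hIf hFpos.le, Real.div_rpow hIg hGpos.le, div_mul_div_comm, ← hr] at h3
  exact (div_le_div_iff_of_pos_right hr0).1 h3

/-- The box. -/
def box (n : ℕ) (R : ℝ) : Set (Fin n → ℝ) := Set.pi univ fun _ => Icc (-R) R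

lemma box_meas (n : ℕ) (R : ℝ) : MeasurableSet (box n R) :=
  (isCompact_univ_pi fun _ => isCompact_Icc).measurableSet

lemma volume_box_lt_top (n : ℕ) (R : ℝ) : volume (box n R) < ∞ :=
  (isCompact_univ_pi fun _ => isCompact_Icc).measure_lt_top

lemma notMem_box {n : ℕ} {R : ℝ} {x : Fin n → ℝ} (h : x ∉ box n R) : ∃ i, R < |x i| := by
  by_contra hcon
  push Not at hcon
  apply h
  intro i _
  exact abs_le.1 (hcon i)

lemma bd_integrable {n : ℕ} {R C : ℝ} {f : (Fin n → ℝ) → ℝ} (hf : Measurable f)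
    (h0 : ∀ x, 0 ≤ f x) (h1 : ∀ x, f x ≤ C) (h2 : ∀ x, (∃ i, R < |x i|) → f x = 0) :
    Integrable f := by
  have h3 : IntegrableOn f (box n R) := by
    apply Measure.integrableOn_of_bounded (M := C) (volume_box_lt_top n R).ne
      hf.aestronglyMeasurable
    exact Filter.Eventually.of_forall fun x => by
      rw [Real.norm_eq_abs, abs_of_nonneg (h0 x)]; exact h1 x
  exact h3.integrable_of_forall_notMem_eq_zero fun x hx => h2 x (notMem_box hx)

lemma bd_integral {n : ℕ} {R C : ℝ} {f : (Fin n → ℝ) → ℝ} (hf : Measurable f)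
    (h0 : ∀ x, 0 ≤ f x) (h1 : ∀ x, f x ≤ C) (h2 : ∀ x, (∃ i, R < |x i|) → f x = 0) :
    ∫ x, f x ≤ C * (volume (box n R)).toReal := by
  rw [← setIntegral_eq_integral_of_forall_compl_eq_zero (s := box n R)
    (fun x hx => h2 x (notMem_box hx))]
  calc ∫ x in box n R, f x ≤ ∫ _x in box n R, C := by
        apply setIntegral_mono_on (bd_integrable hf h0 h1 h2).integrableOn
          (integrableOn_const (volume_box_lt_top n R).ne) (box_meas n R)
        intro x _
        exact h1 x
    _ = C * (volume (box n R)).toReal := by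
        rw [setIntegral_const, smul_eq_mul, mul_comm]
        rfl

/-- Prekopa-Leindler in all dimensions. -/
theorem pl_all : ∀ (n : ℕ) (f g h : (Fin n → ℝ) → ℝ) (t R C : ℝ), 0 < t → t < 1 →
    Measurable f → Measurable g → Measurable h →
    (∀ x, 0 ≤ f x ∧ f x ≤ C) → (∀ x, 0 ≤ g x ∧ g x ≤ C) → (∀ x, 0 ≤ h x ∧ h x ≤ C) →
    (∀ x, (∃ i, R < |x i|) → f x = 0 ∧ g x = 0 ∧ h x = 0) →
    (∀ x y, f x ^ (1 - t) * g y ^ t ≤ h (fun i => (1 - t) * x i + t * y i)) →
    (∫ x, f x) ^ (1 - t) * (∫ x, g x) ^ t ≤ ∫ x, h x := by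
  intro n
  induction n with
  | zero =>
    intro f g h t R C ht0 ht1 _ _ _ _ _ _ _ hfgh
    have hd : ∀ u : (Fin 0 → ℝ) → ℝ, ∫ x, u x = u default := by
      intro u
      rw [volume_pi, Measure.pi_of_empty (x := default), integral_dirac]
    rw [hd, hd, hd]
    have := hfgh default default
    rwa [Subsingleton.elim (fun i => (1 - t) * (default : Fin 0 → ℝ) i + t * (default : Fin 0 → ℝ) i)
      default] at this
  | succ n ih =>
    intro f g h t R C ht0 ht1 hf hg hh hfC hgC hhC hsupp hfgh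
    let e := MeasurableEquiv.piFinSuccAbove (fun _ : Fin (n + 1) => ℝ) 0
    have he0 : ∀ (a : ℝ) (v : Fin n → ℝ), e.symm (a, v) 0 = a := by
      intro a v
      simp [e]
    have hes : ∀ (a : ℝ) (v : Fin n → ℝ) (i : Fin n), e.symm (a, v) i.succ = v i := by
      intro a v i
      simp [e]
    have hmp := (volume_preserving_piFinSuccAbove (fun _ : Fin (n + 1) => ℝ) 0).symm e
    have hsm : ∀ (u : (Fin (n + 1) → ℝ) → ℝ), Measurable u → ∀ a,
        Measurable fun v : Fin n → ℝ => u (e.symm (a, v)) := by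
      intro u hu a
      exact hu.comp (e.symm.measurable.comp measurable_prodMk_left)
    have hint : ∀ (u : (Fin (n + 1) → ℝ) → ℝ), Measurable u → Integrable u →
        ∫ x, u x = ∫ a, ∫ v : Fin n → ℝ, u (e.symm (a, v)) := by
      intro u hu hui
      have h1 : ∫ x, u x = ∫ p : ℝ × (Fin n → ℝ), u (e.symm p) := by
        rw [← hmp.integral_comp' (g := u)]
      have h2 : Integrable (fun p : ℝ × (Fin n → ℝ) => u (e.symm p))
          ((volume : Measure ℝ).prod (volume : Measure (Fin n → ℝ))) :=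
        (hmp.integrable_comp_emb e.symm.measurableEmbedding).2 hui
      rw [h1, Measure.volume_eq_prod, integral_prod _ h2]
    have hmarg : ∀ (u : (Fin (n + 1) → ℝ) → ℝ), Measurable u →
        Measurable fun a => ∫ v : Fin n → ℝ, u (e.symm (a, v)) := by
      intro u hu
      have h1 : StronglyMeasurable (fun p : ℝ × (Fin n → ℝ) => u (e.symm p)) :=
        (hu.comp e.symm.measurable).stronglyMeasurable
      exact h1.integral_prod_right'.measurable
    -- properties of the sections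
    have hsec : ∀ (u : (Fin (n + 1) → ℝ) → ℝ), (∀ x, (∃ i, R < |x i|) → u x = 0) →
        ∀ a, ∀ v : Fin n → ℝ, (∃ i, R < |v i|) → u (e.symm (a, v)) = 0 := by
      intro u hu a v hv
      obtain ⟨i, hi⟩ := hv
      exact hu _ ⟨i.succ, by rw [hes]; exact hi⟩
    have hsec0 : ∀ (u : (Fin (n + 1) → ℝ) → ℝ), (∀ x, (∃ i, R < |x i|) → u x = 0) →
        ∀ a : ℝ, R < |a| → ∫ v : Fin n → ℝ, u (e.symm (a, v)) = 0 := by
      intro u hu a ha
      have : ∀ v : Fin n → ℝ, u (e.symm (a, v)) = 0 := fun v => hu _ ⟨0, by rw [he0]; exact ha⟩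
      simp only [this, integral_zero]
    have hmi : ∀ (u : (Fin (n + 1) → ℝ) → ℝ), Measurable u → (∀ x, 0 ≤ u x ∧ u x ≤ C) →
        (∀ x, (∃ i, R < |x i|) → u x = 0) →
        (∀ a, 0 ≤ ∫ v : Fin n → ℝ, u (e.symm (a, v))) ∧
        (∀ a, ∫ v : Fin n → ℝ, u (e.symm (a, v)) ≤ C * (volume (box n R)).toReal) ∧
        Integrable (fun a => ∫ v : Fin n → ℝ, u (e.symm (a, v))) := by
      intro u hu huC hus
      have k0 : ∀ a, 0 ≤ ∫ v : Fin n → ℝ, u (e.symm (a, v)) :=
        fun a => integral_nonneg fun v => (huC _).1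
      have k1 : ∀ a, ∫ v : Fin n → ℝ, u (e.symm (a, v)) ≤ C * (volume (box n R)).toReal :=
        fun a => bd_integral (hsm u hu a) (fun v => (huC _).1) (fun v => (huC _).2) (hsec u hus a)
      refine ⟨k0, k1, ?_⟩
      have h3 : IntegrableOn (fun a => ∫ v : Fin n → ℝ, u (e.symm (a, v))) (Icc (-R) R) := by
        apply Measure.integrableOn_of_bounded (M := C * (volume (box n R)).toReal)
          (isCompact_Icc.measure_lt_top).ne (hmarg u hu).aestronglyMeasurable
        exact Filter.Eventually.of_forall fun a => by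
          rw [Real.norm_eq_abs, abs_of_nonneg (k0 a)]; exact k1 a
      refine h3.integrable_of_forall_notMem_eq_zero fun a ha => hsec0 u hus a ?_
      by_contra hcon
      exact ha (abs_le.1 (not_lt.1 hcon))
    have sf : ∀ x, (∃ i, R < |x i|) → f x = 0 := fun x hx => (hsupp x hx).1
    have sg : ∀ x, (∃ i, R < |x i|) → g x = 0 := fun x hx => (hsupp x hx).2.1
    have sh : ∀ x, (∃ i, R < |x i|) → h x = 0 := fun x hx => (hsupp x hx).2.2
    obtain ⟨f0, f1, f2⟩ := hmi f hf hfC sf
    obtain ⟨g0, g1, g2⟩ := hmi g hg hgC sg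
    obtain ⟨h0, h1, h2⟩ := hmi h hh hhC sh
    rw [hint f hf (bd_integrable hf (fun x => (hfC x).1) (fun x => (hfC x).2) sf),
      hint g hg (bd_integrable hg (fun x => (hgC x).1) (fun x => (hgC x).2) sg),
      hint h hh (bd_integrable hh (fun x => (hhC x).1) (fun x => (hhC x).2) sh)]
    apply pl_one ht0 ht1 (hmarg f hf) (hmarg g hg) (hmarg h hh) f2 g2 h2 f0 g0 h0 f1 g1
    intro a b
    apply ih (fun v => f (e.symm (a, v))) (fun v => g (e.symm (b, v)))
      (fun v => h (e.symm ((1 - t) * a + t * b, v))) t R C ht0 ht1 (hsm f hf a) (hsm g hg b)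
      (hsm h hh _) (fun v => hfC _) (fun v => hgC _) (fun v => hhC _)
      (fun v hv => ⟨hsec f sf a v hv, hsec g sg b v hv, hsec h sh _ v hv⟩)
    intro v w
    have h5 := hfgh (e.symm (a, v)) (e.symm (b, w))
    have h6 : (fun i => (1 - t) * e.symm (a, v) i + t * e.symm (b, w) i) =
        e.symm ((1 - t) * a + t * b, fun i => (1 - t) * v i + t * w i) := by
      funext i
      refine Fin.cases ?_ (fun j => ?_) i
      · rw [he0, he0, he0]
      · rw [hes, hes, hes]
    rw [h6] at h5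
    exact h5

theorem pl : PlStmt := by
  intro n f g h t R ht0 ht1 hf hg hh hfR hgR hhR hs hfgh
  exact pl_all n f g h t R R ht0 ht1 hf hg hh hfR hgR hhR hs hfgh

end Pool.Agent.Helper9.FR
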